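import Mathlib
import Pool.Agent.R877.RN.Final

/-!
# MP_6ec3b3_gt: reducing the rank of solvable Lie algebras with negative Ricci curvature

For every nonzero real finite-dimensional solvable Lie algebra `g` with nilradical `n` the following
are equivalent: (i) `g` carries an inner product with `Ric < 0`; (ii) there is `Y ∈ g ∖ n` such that
the subalgebra `ℝY ⊕ n` carries an inner product with `Ric < 0`.
-/

namespace Pool.Agent.Results.MP_6ec3b3_gt.RankReduction

section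
variable {g : Type} [LieRing g] [LieAlgebra ℝ g]

/-- `B` is an inner product: a symmetric positive definite bilinear form. -/
def IsInnerProduct (B : g →ₗ[ℝ] g →ₗ[ℝ] ℝ) : Prop :=
  (∀ x y, B x y = B y x) ∧ ∀ x, x ≠ 0 → 0 < B x x

/-- `D` is the Levi-Civita connection of the left-invariant metric given by `B`, on left-invariant
vector fields: it is torsion free, `D_x y - D_y x = [x, y]`, and metric,
`B (D_x y) z + B y (D_x z) = 0`. -/
def IsLeviCivita (B : g →ₗ[ℝ] g →ₗ[ℝ] ℝ) (D : g →ₗ[ℝ] g →ₗ[ℝ] g) : Prop :=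
  (∀ x y, D x y - D y x = ⁅x, y⁆) ∧ ∀ x y z, B (D x y) z + B y (D x z) = 0

/-- The map `z ↦ R(z, x) y = D_z D_x y - D_x D_z y - D_[z,x] y`. -/
noncomputable def curvature (D : g →ₗ[ℝ] g →ₗ[ℝ] g) (x y : g) : g →ₗ[ℝ] g where
  toFun z := D z (D x y) - D x (D z y) - D ⁅z, x⁆ y
  map_add' a b := by simp only [map_add, LinearMap.add_apply, add_lie]; abel
  map_smul' r a := by simp only [map_smul, LinearMap.smul_apply, smul_lie, RingHom.id_apply, smul_sub]

/-- The Ricci tensor: `Ric(x, y)` is the trace of `z ↦ R(z, x) y`. -/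
noncomputable def Ric (D : g →ₗ[ℝ] g →ₗ[ℝ] g) (x y : g) : ℝ :=
  LinearMap.trace ℝ g (curvature D x y)

/-- `n` is the nilradical: a nilpotent ideal containing all nilpotent ideals. -/
def IsNilradical (n : LieIdeal ℝ g) : Prop :=
  LieRing.IsNilpotent n ∧ ∀ J : LieIdeal ℝ g, LieRing.IsNilpotent J → J ≤ n

end

/-- `g` carries an inner product with `Ric < 0`: `Ric(x, x) < 0` for all nonzero `x`. -/
def CarriesNegativeRicci (g : Type) [LieRing g] [LieAlgebra ℝ g] : Prop :=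
  ∃ (B : g →ₗ[ℝ] g →ₗ[ℝ] ℝ) (D : g →ₗ[ℝ] g →ₗ[ℝ] g),
    IsInnerProduct B ∧ IsLeviCivita B D ∧ ∀ x : g, x ≠ 0 → Ric D x x < 0

theorem carries_iff (g : Type) [LieRing g] [LieAlgebra ℝ g] :
    CarriesNegativeRicci g ↔ R877.RN.NegRic g := by
  constructor
  · rintro ⟨B, D, hB, hD, h⟩
    exact ⟨B, D, ⟨hB.1, hB.2⟩, ⟨hD.1, hD.2⟩, h⟩
  · rintro ⟨B, D, hB, hD, h⟩
    exact ⟨B, D, ⟨hB.symm, hB.pos⟩, ⟨hD.torsion, hD.metric⟩, h⟩

/-- The two conditions are equivalent. -/
theorem result (g : Type) [LieRing g] [LieAlgebra ℝ g] [FiniteDimensional ℝ g]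
    [LieAlgebra.IsSolvable g] [Nontrivial g] (n : LieIdeal ℝ g) (hn : IsNilradical n) :
    CarriesNegativeRicci g ↔
      ∃ Y : g, Y ∉ n ∧ ∃ K : LieSubalgebra ℝ g,
        K.toSubmodule = Submodule.span ℝ {Y} ⊔ n.toSubmodule ∧ CarriesNegativeRicci K := by
  constructor
  · intro h
    obtain ⟨Y, hY, K, hK, hneg⟩ := R877.RN.final_fwd g n hn ((carries_iff g).1 h)
    exact ⟨Y, hY, K, hK, (carries_iff K).2 hneg⟩
  · rintro ⟨Y, hY, K, hK, hneg⟩
    exact (carries_iff g).2 (R877.RN.final_bwd g n hn ⟨Y, hY, K, hK, (carries_iff K).1 hneg⟩)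

end Pool.Agent.Results.MP_6ec3b3_gt.RankReduction
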